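import Pool.Agent.U204.PN.Stm

set_option autoImplicit false

/-! Project PN, package COV: correlations of the characters. -/

open MeasureTheory Filter Topology Finset

namespace Pool.Agent.U139.PN.COV

open Pool.Agent.U204.PN

/-- `f` depends on the coordinates below `L` only -/
def Dep {E : Type} (L : ℕ) (f : (ℕ → Bool) → E) : Prop :=
  ∀ ω ω' : ℕ → Bool, (∀ i < L, ω i = ω' i) → f ω = f ω'

theorem Dep.loc {E : Type} {L : ℕ} {f : (ℕ → Bool) → E} (h : Dep L f) : Loc f := ⟨L, h⟩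

theorem Dep.mono {E : Type} {L L' : ℕ} {f : (ℕ → Bool) → E} (h : Dep L f) (hL : L ≤ L') :
    Dep L' f := fun ω ω' hw => h ω ω' fun i hi => hw i (lt_of_lt_of_le hi hL)

theorem Dep.upd {E : Type} {L : ℕ} {f : (ℕ → Bool) → E} (h : Dep L f) {m : ℕ} (hm : L ≤ m)
    (ω : ℕ → Bool) (b : Bool) : f (Function.update ω m b) = f ω :=
  h _ _ fun i hi => Function.update_of_ne (by omega) _ _

theorem F_congr (hL : S_LOC) {A B : Set ℕ} (k : ℕ) (c : Fin (k + 1) → ℤ) (n : ℕ)
    (h : ∀ m, 1 ≤ m → m ≤ n + k → (m ∈ A ↔ m ∈ B)) : F A k c n = F B k c n := by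
  refine Finset.sum_congr rfl fun j _ => ?_
  have hj : (j : ℕ) < k + 1 := j.2
  rw [hL A B (n + j) fun m h1 hm => h m h1 (by omega)]

theorem dep_F (hL : S_LOC) (S : Set ℕ) (k : ℕ) (c : Fin (k + 1) → ℤ) (n : ℕ) :
    Dep (n + k + 1) fun ω => F (chg S ω) k c n := by
  intro ω ω' hw
  refine F_congr hL k c n fun m _ hm => ?_
  simp only [chg, Set.mem_ofPred_eq]
  rw [hw m (by omega)]

theorem X_congr {A B : Set ℕ} (M : ℕ) {k : ℕ} {c : Fin (k + 1) → ℤ} {n : ℕ}
    (h : F A k c n = F B k c n) : X A M k c n = X B M k c n := by rw [X, X, h]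

theorem dep_X (hL : S_LOC) (S : Set ℕ) (M k : ℕ) (c : Fin (k + 1) → ℤ) (n : ℕ) :
    Dep (n + k + 1) fun ω => X (chg S ω) M k c n := fun ω ω' hw =>
  X_congr M (dep_F hL S k c n ω ω' hw)

/-- the reset value -/
noncomputable def v (S : Set ℕ) (m : ℕ) : Bool := by classical exact decide (m ∈ S)

theorem v_true (S : Set ℕ) {m : ℕ} (h : m ∈ S) : v S m = true := by simp [v, h]

theorem v_false (S : Set ℕ) {m : ℕ} (h : m ∉ S) : v S m = false := by simp [v, h]

/-- the coordinates `n' - r, ..., n' - 1` are reset -/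
noncomputable def R (S : Set ℕ) (n' r : ℕ) (ω : ℕ → Bool) : ℕ → Bool := fun i =>
  if n' - r ≤ i ∧ i < n' then v S i else ω i

theorem R_zero (S : Set ℕ) (n' : ℕ) (ω : ℕ → Bool) : R S n' 0 ω = ω := by
  funext i
  simp only [R]
  rw [if_neg (by omega)]

theorem R_upd (S : Set ℕ) {n' r : ℕ} (hr : r + 1 ≤ n') (ω : ℕ → Bool) (b : Bool) :
    R S n' r (Function.update ω (n' - (r + 1)) b) =
      Function.update (R S n' (r + 1) ω) (n' - (r + 1)) b := by
  funext i
  by_cases hi : i = n' - (r + 1)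
  · subst hi
    rw [Function.update_self]
    simp only [R]
    rw [if_neg (by omega), Function.update_self]
  · rw [Function.update_of_ne hi]
    simp only [R]
    rw [Function.update_of_ne hi]
    by_cases h1 : n' - r ≤ i ∧ i < n'
    · rw [if_pos h1, if_pos (by omega)]
    · rw [if_neg h1, if_neg (by omega)]

theorem R_self (S : Set ℕ) {n' r : ℕ} (hr : r + 1 ≤ n') (ω : ℕ → Bool) :
    R S n' (r + 1) ω (n' - (r + 1)) = v S (n' - (r + 1)) := by
  simp only [R]
  rw [if_pos (by omega)]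

theorem chg_reset (S : Set ℕ) (ω : ℕ → Bool) (m : ℕ) (h : ω m = v S m) : m ∉ chg S ω := by
  intro h1
  simp only [chg, Set.mem_ofPred_eq] at h1
  by_cases hS : m ∈ S
  · have := h1.1 hS
    rw [h, v_true S hS] at this
    exact absurd this (by decide)
  · exact hS (h1.2 (by rw [h, v_false S hS]))

theorem chg_flip (S : Set ℕ) (ω : ℕ → Bool) (m : ℕ) (h : ω m = v S m) :
    chg S (Function.update ω m (!v S m)) = insert m (chg S ω) := by
  ext x
  rw [Set.mem_insert_iff]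
  simp only [chg, Set.mem_ofPred_eq]
  by_cases hx : x = m
  · subst hx
    rw [Function.update_self]
    by_cases hS : x ∈ S
    · rw [v_true S hS]; simp [hS]
    · rw [v_false S hS]; simp [hS]
  · rw [Function.update_of_ne hx]
    simp [hx]

theorem chg_same (S : Set ℕ) (ω : ℕ → Bool) (m : ℕ) (h : ω m = v S m) :
    Function.update ω m (v S m) = ω := by rw [← h, Function.update_eq_self]

theorem F_insert (hO : S_ONE) (A : Set ℕ) {n' D k r : ℕ} (c : Fin (k + 1) → ℤ) (hr : r < D)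
    (hD : 2 * D + k < n') (hm : n' - (r + 1) ∉ A) :
    F (insert (n' - (r + 1)) A) k c n' = F A k c n' + F A k c (r + 1) := by
  unfold F
  rw [← Finset.sum_add_distrib]
  refine Finset.sum_congr rfl fun j _ => ?_
  have hj : (j : ℕ) < k + 1 := j.2
  rw [hO A (n' - (r + 1)) (n' + j) (by omega) (by omega) hm,
    show n' + (j : ℕ) - (n' - (r + 1)) = r + 1 + j by omega]
  push_cast
  ring

theorem X_insert (hO : S_ONE) (A : Set ℕ) {n' D k r : ℕ} (M : ℕ) (c : Fin (k + 1) → ℤ) (hr : r < D)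
    (hD : 2 * D + k < n') (hm : n' - (r + 1) ∉ A) :
    X (insert (n' - (r + 1)) A) M k c n' = X A M k c n' * X A M k c (r + 1) := by
  rw [X, X, X, F_insert hO A c hr hD hm, ← Complex.exp_add]
  congr 1
  push_cast
  ring

/-- the weight of the non-reset value -/
noncomputable def qq (μ : ℕ → Measure Bool) (S : Set ℕ) (n' i : ℕ) : ℝ := by
  classical exact if n' - i ∈ S then 1 - (μ (n' - i)).real {true} else (μ (n' - i)).real {true}

/-- the factors -/
noncomputable def ph (μ : ℕ → Measure Bool) (S : Set ℕ) (M k : ℕ) (c : Fin (k + 1) → ℤ) (n' i : ℕ)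
    (ω : ℕ → Bool) : ℂ := (1 - (qq μ S n' i : ℂ)) + (qq μ S n' i : ℂ) * X (chg S ω) M k c i

theorem dep_ph (hL : S_LOC) (μ : ℕ → Measure Bool) (S : Set ℕ) (M k : ℕ) (c : Fin (k + 1) → ℤ)
    (n' i : ℕ) : Dep (i + k + 1) (ph μ S M k c n' i) := fun ω ω' hw => by
  have h := dep_X hL S M k c i ω ω' hw
  simp only at h
  unfold ph
  rw [h]

theorem dep_XR (hL : S_LOC) (S : Set ℕ) (M k : ℕ) (c : Fin (k + 1) → ℤ) (n' r n : ℕ) :
    Dep (n + k + 1) fun ω => X (chg S (R S n' r ω)) M k c n := fun ω ω' hw => by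
  refine dep_X hL S M k c n _ _ fun i hi => ?_
  simp only [R]
  rw [hw i hi]

theorem step (hL : S_LOC) (hO : S_ONE) (hA : S_AVG) (μ : ℕ → Measure Bool)
    [∀ n, IsProbabilityMeasure (μ n)] (S : Set ℕ) (M k : ℕ) (c : Fin (k + 1) → ℤ) {n' D r : ℕ}
    (hr : r < D) (hD : 2 * D + k < n') (H : (ℕ → Bool) → ℂ) (hH : Dep (n' - D) H) :
    ∫ ω, X (chg S (R S n' r ω)) M k c n' * H ω ∂(Measure.infinitePi μ) =
      ∫ ω, X (chg S (R S n' (r + 1) ω)) M k c n' * (H ω * ph μ S M k c n' (r + 1) ω)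
        ∂(Measure.infinitePi μ) := by
  have hloc : Loc fun ω => X (chg S (R S n' r ω)) M k c n' * H ω := by
    refine Dep.loc (L := n' + k + 1) fun ω ω' hw => ?_
    have h1 := dep_XR hL S M k c n' r n' ω ω' hw
    have h2 := hH.mono (show n' - D ≤ n' + k + 1 by omega) ω ω' hw
    simp only at h1
    rw [h1, h2]
  rw [((hA μ (n' - (r + 1))).2 _ hloc).2.2]
  refine integral_congr_ae (Eventually.of_forall fun ω => ?_)
  have hrn : r + 1 ≤ n' := by omega
  have hHu : ∀ b, H (Function.update ω (n' - (r + 1)) b) = H ω := fun b =>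
    hH.upd (by omega) ω b
  have hs := R_self S hrn ω
  set A := chg S (R S n' (r + 1) ω) with hAdef
  have hmA : n' - (r + 1) ∉ A := chg_reset S _ _ hs
  have e1 : chg S (R S n' r (Function.update ω (n' - (r + 1)) (v S (n' - (r + 1))))) = A := by
    rw [R_upd S hrn, chg_same S _ _ hs]
  have e2 : chg S (R S n' r (Function.update ω (n' - (r + 1)) (!v S (n' - (r + 1))))) =
      insert (n' - (r + 1)) A := by
    rw [R_upd S hrn, chg_flip S _ _ hs]
  have e3 : X A M k c (r + 1) = X (chg S ω) M k c (r + 1) := by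
    refine dep_X hL S M k c (r + 1) _ _ fun i hi => ?_
    simp only [R]
    rw [if_neg (by omega)]
  have e4 : X (insert (n' - (r + 1)) A) M k c n' = X A M k c n' * X (chg S ω) M k c (r + 1) := by
    rw [X_insert hO A M c hr hD hmA, e3]
  simp only [hHu]
  by_cases hS : n' - (r + 1) ∈ S
  · rw [v_true S hS] at e1 e2
    have e2' : chg S (R S n' r (Function.update ω (n' - (r + 1)) false)) =
      insert (n' - (r + 1)) A := e2
    rw [e1, e2', e4]
    have hq : qq μ S n' (r + 1) = 1 - (μ (n' - (r + 1))).real {true} := by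
      unfold qq; rw [if_pos hS]
    unfold ph
    rw [hq]
    push_cast
    ring
  · rw [v_false S hS] at e1 e2
    have e2' : chg S (R S n' r (Function.update ω (n' - (r + 1)) true)) =
      insert (n' - (r + 1)) A := e2
    rw [e1, e2', e4]
    have hq : qq μ S n' (r + 1) = (μ (n' - (r + 1))).real {true} := by
      unfold qq; rw [if_neg hS]
    unfold ph
    rw [hq]
    ring

theorem iter (hL : S_LOC) (hO : S_ONE) (hA : S_AVG) (μ : ℕ → Measure Bool)
    [∀ n, IsProbabilityMeasure (μ n)] (S : Set ℕ) (M k : ℕ) (c : Fin (k + 1) → ℤ) {n' D : ℕ}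
    (hD : 2 * D + k < n') (H : (ℕ → Bool) → ℂ) (hH : Dep (n' - D) H) (r : ℕ) (hr : r ≤ D) :
    Dep (n' - D) (fun ω => H ω * ∏ i ∈ Icc 1 r, ph μ S M k c n' i ω) ∧
    ∫ ω, X (chg S ω) M k c n' * H ω ∂(Measure.infinitePi μ) =
      ∫ ω, X (chg S (R S n' r ω)) M k c n' * (H ω * ∏ i ∈ Icc 1 r, ph μ S M k c n' i ω)
        ∂(Measure.infinitePi μ) := by
  induction r with
  | zero => simp [R_zero]; exact hH
  | succ r ih =>
    obtain ⟨h1, h2⟩ := ih (by omega)
    have h3 := step hL hO hA μ S M k c (r := r) (by omega) hD _ h1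
    have e : ∀ ω, H ω * ∏ i ∈ Icc 1 (r + 1), ph μ S M k c n' i ω =
        (H ω * ∏ i ∈ Icc 1 r, ph μ S M k c n' i ω) * ph μ S M k c n' (r + 1) ω := by
      intro ω
      rw [Finset.prod_Icc_succ_top (by omega), mul_assoc]
    refine ⟨?_, ?_⟩
    · intro ω ω' hw
      have h4 := h1 ω ω' hw
      have h5 := (dep_ph hL μ S M k c n' (r + 1)).mono
        (show r + 1 + k + 1 ≤ n' - D by omega) ω ω' hw
      simp only at h4 ⊢
      rw [e, e, h4, h5]
    · rw [h2, h3]
      simp only [e]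

theorem exists_lb (s : Finset ℕ) (f : ℕ → ℝ) (h : ∀ a ∈ s, 0 < f a) :
    ∃ κ : ℝ, 0 < κ ∧ κ ≤ 1 ∧ ∀ a ∈ s, κ ≤ f a := by
  induction s using Finset.induction_on with
  | empty => exact ⟨1, one_pos, le_rfl, fun a ha => absurd ha (Finset.notMem_empty a)⟩
  | insert a s _ ih =>
    obtain ⟨κ, h0, h1, h2⟩ := ih fun b hb => h b (Finset.mem_insert_of_mem hb)
    refine ⟨min κ (f a), lt_min h0 (h a (Finset.mem_insert_self _ _)),
      (min_le_left _ _).trans h1, fun b hb => ?_⟩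
    rcases Finset.mem_insert.1 hb with rfl | hb
    · exact min_le_right _ _
    · exact (min_le_left _ _).trans (h2 b hb)

theorem exists_kappa (M : ℕ) (hM : 1 ≤ M) : ∃ κ : ℝ, 0 < κ ∧ κ ≤ 1 ∧
    ∀ a : ℤ, ¬ (M : ℤ) ∣ a → Real.cos (2 * Real.pi * a / M) ≤ 1 - 2 * κ := by
  have hM0 : (0 : ℝ) < M := by exact_mod_cast hM
  obtain ⟨κ, h0, h1, h2⟩ := exists_lb (Finset.Ico 1 M)
    (fun j => (1 - Real.cos (2 * Real.pi * (j : ℝ) / M)) / 2) fun j hj => by
      rw [Finset.mem_Ico] at hj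
      have hne : Real.cos (2 * Real.pi * (j : ℝ) / M) ≠ 1 := by
        intro h
        obtain ⟨t, ht⟩ := (Real.cos_eq_one_iff _).1 h
        have h3 : (t : ℝ) * M = j := by
          have hpi := Real.pi_pos
          field_simp at ht
          nlinarith
        have h4 : t * (M : ℤ) = (j : ℤ) := by exact_mod_cast h3
        have h5 : (M : ℤ) ∣ (j : ℤ) := ⟨t, by rw [mul_comm]; exact h4.symm⟩
        have h6 := Int.le_of_dvd (by omega) h5
        omega
      have := lt_of_le_of_ne (Real.cos_le_one _) hne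
      linarith
  refine ⟨κ, h0, h1, fun a ha => ?_⟩
  have hpos : 0 < (M : ℤ) := by exact_mod_cast hM
  have hr0 := Int.emod_nonneg a hpos.ne'
  have hr1 := Int.emod_lt_of_pos a hpos
  have hr2 : a % (M : ℤ) ≠ 0 := fun h => ha (Int.dvd_of_emod_eq_zero h)
  have h3 := h2 (a % (M : ℤ)).toNat (by rw [Finset.mem_Ico]; omega)
  have h4 : (((a % (M : ℤ)).toNat : ℕ) : ℝ) = ((a % (M : ℤ) : ℤ) : ℝ) := by
    have : (((a % (M : ℤ)).toNat : ℕ) : ℤ) = a % (M : ℤ) := Int.toNat_of_nonneg hr0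
    exact_mod_cast this
  have h5 : 2 * Real.pi * (a : ℝ) / M = 2 * Real.pi * ((a % (M : ℤ) : ℤ) : ℝ) / M +
      ((a / (M : ℤ) : ℤ) : ℝ) * (2 * Real.pi) := by
    have h6 : (a : ℝ) = (M : ℝ) * ((a / (M : ℤ) : ℤ) : ℝ) + ((a % (M : ℤ) : ℤ) : ℝ) := by
      exact_mod_cast (Int.mul_ediv_add_emod a (M : ℤ)).symm
    conv_lhs => rw [h6]
    field_simp
    ring
  rw [h5, Real.cos_add_int_mul_two_pi]
  rw [h4] at h3
  linarith

theorem X_form (A : Set ℕ) (M k : ℕ) (c : Fin (k + 1) → ℤ) (i : ℕ) :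
    X A M k c i = Complex.exp (((2 * Real.pi * (F A k c i : ℝ) / M : ℝ) : ℂ) * Complex.I) := by
  rw [X]
  congr 1
  push_cast
  ring

theorem norm_factor {κ η q θ : ℝ} (hκ : 0 ≤ κ) (hη : 0 ≤ η) (hq : η / 2 ≤ q * (1 - q))
    (hθ : Real.cos θ ≤ 1 - 2 * κ) :
    ‖(1 - (q : ℂ)) + (q : ℂ) * Complex.exp ((θ : ℂ) * Complex.I)‖ ≤ Real.exp (-(κ * η)) := by
  have h1 : ‖(1 - (q : ℂ)) + (q : ℂ) * Complex.exp ((θ : ℂ) * Complex.I)‖ ^ 2 =
      1 - 2 * (q * (1 - q)) * (1 - Real.cos θ) := by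
    rw [← Complex.normSq_eq_norm_sq, Complex.normSq_apply]
    have hre : ((1 - (q : ℂ)) + (q : ℂ) * Complex.exp ((θ : ℂ) * Complex.I)).re =
        (1 - q) + q * Real.cos θ := by
      rw [Complex.add_re, Complex.re_ofReal_mul, Complex.exp_ofReal_mul_I_re]
      simp
    have him : ((1 - (q : ℂ)) + (q : ℂ) * Complex.exp ((θ : ℂ) * Complex.I)).im =
        q * Real.sin θ := by
      rw [Complex.add_im, Complex.im_ofReal_mul, Complex.exp_ofReal_mul_I_im]
      simp
    rw [hre, him]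
    have := Real.sin_sq_add_cos_sq θ
    linear_combination q ^ 2 * this
  have h2 : 2 * (q * (1 - q)) * (1 - Real.cos θ) ≥ 2 * (κ * η) := by
    have h3 : 2 * κ ≤ 1 - Real.cos θ := by linarith
    have h4 := mul_le_mul hq h3 (by positivity) (by linarith [hq, hη])
    nlinarith
  have h5 : ‖(1 - (q : ℂ)) + (q : ℂ) * Complex.exp ((θ : ℂ) * Complex.I)‖ ^ 2 ≤
      Real.exp (-(κ * η)) ^ 2 := by
    rw [h1, ← Real.exp_nat_mul]
    have h6 := Real.add_one_le_exp (((2 : ℕ) : ℝ) * -(κ * η))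
    push_cast at h6 ⊢
    linarith
  exact (pow_le_pow_iff_left₀ (norm_nonneg _) (Real.exp_pos _).le two_ne_zero).1 h5

theorem t_COV : S_COV := by
  intro hL hO hA M hM
  obtain ⟨κ, hκ0, hκ1, hκ⟩ := exists_kappa M hM
  refine ⟨κ, hκ0, hκ1, ?_⟩
  intro μ _ S k c n n' D η hn hD hη hμ
  set H : (ℕ → Bool) → ℂ := fun ω => (starRingEnd ℂ) (X (chg S ω) M k c n) with hH
  have hHd : Dep (n' - D) H := by
    intro ω ω' hw
    have := (dep_X hL S M k c n).mono (show n + k + 1 ≤ n' - D by omega) ω ω' hw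
    simp only [hH]
    simp only at this
    rw [this]
  obtain ⟨h1, h2⟩ := iter hL hO hA μ S M k c hD H hHd D le_rfl
  have h2' : ∫ ω, X (chg S ω) M k c n' * (starRingEnd ℂ) (X (chg S ω) M k c n)
      ∂(Measure.infinitePi μ) = ∫ ω, X (chg S (R S n' D ω)) M k c n' *
        (H ω * ∏ i ∈ Icc 1 D, ph μ S M k c n' i ω) ∂(Measure.infinitePi μ) := h2
  rw [h2']
  refine (norm_integral_le_integral_norm _).trans ?_
  have l1 : Loc fun ω => ‖X (chg S (R S n' D ω)) M k c n' *
      (H ω * ∏ i ∈ Icc 1 D, ph μ S M k c n' i ω)‖ := by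
    refine Dep.loc (L := n' + k + 1) fun ω ω' hw => ?_
    have g1 := dep_XR hL S M k c n' D n' ω ω' hw
    have g2 := h1.mono (show n' - D ≤ n' + k + 1 by omega) ω ω' hw
    simp only at g1 g2 ⊢
    rw [g1, g2]
  have l2 : Loc fun ω => Real.exp (-(κ * η * (J (chg S ω) M k c D : ℝ))) := by
    refine Dep.loc (L := D + k + 1) fun ω ω' hw => ?_
    have : J (chg S ω) M k c D = J (chg S ω') M k c D := by
      unfold J
      congr 1
      refine Finset.filter_congr fun i hi => ?_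
      rw [Finset.mem_Icc] at hi
      have := (dep_F hL S k c i).mono (show i + k + 1 ≤ D + k + 1 by omega) ω ω' hw
      simp only at this
      rw [this]
    show Real.exp (-(κ * η * (J (chg S ω) M k c D : ℝ))) =
      Real.exp (-(κ * η * (J (chg S ω') M k c D : ℝ)))
    rw [this]
  refine integral_mono ((hA μ 0).1 _ l1).1 ((hA μ 0).1 _ l2).1 fun ω => ?_
  show ‖X (chg S (R S n' D ω)) M k c n' * (H ω * ∏ i ∈ Icc 1 D, ph μ S M k c n' i ω)‖ ≤
    Real.exp (-(κ * η * (J (chg S ω) M k c D : ℝ)))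
  have b1 : ‖X (chg S (R S n' D ω)) M k c n'‖ ≤ 1 := norm_X _ _ _ _ _
  have b2 : ‖H ω‖ ≤ 1 := by
    simp only [hH]
    rw [Complex.norm_conj]
    exact norm_X _ _ _ _ _
  have b3 : ‖∏ i ∈ Icc 1 D, ph μ S M k c n' i ω‖ ≤
      Real.exp (-(κ * η * (J (chg S ω) M k c D : ℝ))) := by
    classical
    have hJ : (J (chg S ω) M k c D : ℝ) =
        ∑ i ∈ Icc 1 D, (if ¬ (M : ℤ) ∣ F (chg S ω) k c i then (1 : ℝ) else 0) := by
      unfold J
      rw [Finset.card_filter]
      push_cast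
      refine Finset.sum_congr rfl fun i _ => ?_
      split_ifs <;> rfl
    rw [hJ, Finset.mul_sum, ← Finset.sum_neg_distrib, Real.exp_sum, norm_prod]
    refine Finset.prod_le_prod (fun i _ => norm_nonneg _) fun i hi => ?_
    rw [Finset.mem_Icc] at hi
    have hp := hμ (n' - i) (by omega)
    have hq : η / 2 ≤ qq μ S n' i * (1 - qq μ S n' i) := by
      have h3 : η / 2 ≤ (μ (n' - i)).real {true} * (1 - (μ (n' - i)).real {true}) := by
        nlinarith [hp.1, hp.2]
      unfold qq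
      split_ifs
      · nlinarith
      · exact h3
    unfold ph
    rw [X_form]
    by_cases hdv : (M : ℤ) ∣ F (chg S ω) k c i
    swap
    · rw [if_pos hdv, mul_one]
      exact norm_factor hκ0.le hη hq (hκ _ hdv)
    · rw [if_neg (not_not.2 hdv)]
      obtain ⟨t, ht⟩ := hdv
      have hM0 : (M : ℝ) ≠ 0 := by
        have : (0 : ℝ) < M := by exact_mod_cast hM
        exact this.ne'
      have e : Complex.exp (((2 * Real.pi * (F (chg S ω) k c i : ℝ) / M : ℝ) : ℂ) * Complex.I) =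
          1 := by
        rw [Complex.exp_eq_one_iff]
        refine ⟨t, ?_⟩
        rw [ht]
        have hM0' : (M : ℂ) ≠ 0 := by exact_mod_cast hM0
        push_cast
        field_simp
      rw [e]
      simp
  rw [norm_mul, norm_mul]
  calc ‖X (chg S (R S n' D ω)) M k c n'‖ * (‖H ω‖ * ‖∏ i ∈ Icc 1 D, ph μ S M k c n' i ω‖)
      ≤ 1 * (1 * ‖∏ i ∈ Icc 1 D, ph μ S M k c n' i ω‖) :=
        mul_le_mul b1 (mul_le_mul_of_nonneg_right b2 (norm_nonneg _)) (by positivity) (by norm_num)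
    _ = ‖∏ i ∈ Icc 1 D, ph μ S M k c n' i ω‖ := by ring
    _ ≤ _ := b3

end Pool.Agent.U139.PN.COV
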